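import Mathlib
import Pool.Graph.R_seed8.Helper479.Inv

/-!
# The inverse domination number can exceed the independence number by any amount

`m` copies of the 26-vertex gadget of the library (two complements of the Wagner graph, a `K₄`, an
isolated vertex and five label vertices), whose `5 m` label vertices form one clique.  The label
vertices are the unique minimum dominating set, every independent set has at most `6 m + 1`
vertices, and every dominating set that avoids the label vertices has at least `7 m` vertices.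
-/

set_option autoImplicit false

namespace Pool.Agent.Results.MP_bd5289_co.UnboundedGap

open Pool.Agent.H479Inv

/-- `m` copies of the gadget, all label vertices adjacent. -/
def Gr (m : ℕ) : SimpleGraph (Fin m × Fin 26) where
  Adj p q := (p.1 = q.1 ∧ q.2 ∈ nb p.2) ∨ (p.1 ≠ q.1 ∧ p.2 < 5 ∧ q.2 < 5)
  symm := by
    constructor
    rintro ⟨a, i⟩ ⟨b, j⟩ h
    rcases h with ⟨h1, h2⟩ | ⟨h1, h2, h3⟩
    · exact Or.inl ⟨h1.symm, nb_symm _ _ h2⟩
    · exact Or.inr ⟨fun h => h1 h.symm, h3, h2⟩
  loopless := by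
    constructor
    rintro ⟨a, i⟩ h
    rcases h with ⟨-, h2⟩ | ⟨h1, -, -⟩
    · exact nb_irrefl _ h2
    · exact h1 rfl

theorem no_isolated' (m : ℕ) : ∀ v, ∃ u, (Gr m).Adj v u := by
  rintro ⟨c, i⟩
  obtain ⟨j, hj⟩ := nb_ne_nil i
  exact ⟨(c, j), Or.inl ⟨rfl, hj⟩⟩

/-- membership function of a copy -/
def me {m : ℕ} (X : Finset (Fin m × Fin 26)) (c : Fin m) (i : Fin 26) : Bool := decide ((c, i) ∈ X)

theorem me_iff {m : ℕ} (X : Finset (Fin m × Fin 26)) (c : Fin m) (i : Fin 26) :
    me X c i = true ↔ (c, i) ∈ X := by simp [me]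

theorem card_eq' {m : ℕ} (X : Finset (Fin m × Fin 26)) : X.card = ∑ c, cnt (me X c) := by
  have : X.card = ∑ v : Fin m × Fin 26, (me X v.1 v.2).toNat := by
    rw [Finset.card_eq_sum_ones, ← Finset.sum_subset (Finset.subset_univ X)]
    · apply Finset.sum_congr rfl
      intro v hv
      simp [me, hv]
    · intro v _ hv
      simp [me, hv]
  rw [this, Fintype.sum_prod_type]
  simp [cnt]

/-- The label vertices. -/
def L (m : ℕ) : Finset (Fin m × Fin 26) := Finset.univ.filter (fun v => v.2 < 5)

theorem L_card (m : ℕ) : (L m).card = 5 * m := by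
  rw [card_eq']
  have : ∀ c : Fin m, cnt (me (L m) c) = 5 := by
    intro c
    have h : me (L m) c = fun i => decide (i < 5) := by
      funext i; simp [me, L]
    rw [h]; decide
  simp [this, mul_comm]

theorem L_dom (m : ℕ) : ∀ v, v ∈ L m ∨ ∃ u ∈ L m, (Gr m).Adj v u := by
  rintro ⟨c, i⟩
  by_cases hi : i < 5
  · left; simp [L, hi]
  · right
    obtain ⟨j, hj, hj5⟩ := low_nb i (not_lt.mp hi)
    exact ⟨(c, j), by simp [L, hj5], Or.inl ⟨rfl, hj⟩⟩

theorem dom_copy' {m : ℕ} (X : Finset (Fin m × Fin 26))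
    (hX : ∀ v, v ∈ X ∨ ∃ u ∈ X, (Gr m).Adj v u) (c : Fin m) : DomH (me X c) := by
  intro i hi
  rcases hX (c, i) with h | ⟨⟨c', j⟩, hj, h | h⟩
  · left; exact (me_iff _ _ _).mpr h
  · right
    obtain ⟨h1, h2⟩ := h
    simp only at h1 h2
    subst h1
    exact ⟨j, h2, (me_iff _ _ _).mpr hj⟩
  · exact absurd h.2.1 (not_lt.mpr hi)

/-- Every dominating set has at least `5 m` vertices. -/
theorem dom_ge {m : ℕ} (X : Finset (Fin m × Fin 26))
    (hX : ∀ v, v ∈ X ∨ ∃ u ∈ X, (Gr m).Adj v u) : 5 * m ≤ X.card := by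
  rw [card_eq']
  calc 5 * m = ∑ _c : Fin m, 5 := by simp [mul_comm]
    _ ≤ _ := Finset.sum_le_sum fun c _ => (copyD _ (dom_copy' X hX c)).1

/-- A dominating set with at most `5 m` vertices contains all label vertices. -/
theorem dom_eq {m : ℕ} (D : Finset (Fin m × Fin 26))
    (hD : ∀ v, v ∈ D ∨ ∃ u ∈ D, (Gr m).Adj v u) (hc : D.card ≤ 5 * m) (c : Fin m) (i : Fin 26)
    (hi : i < 5) : (c, i) ∈ D := by
  have h5 : ∀ c, 5 ≤ cnt (me D c) := fun c => (copyD _ (dom_copy' D hD c)).1
  have hle : cnt (me D c) ≤ 5 := by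
    by_contra h
    push Not at h
    have : ∑ _c : Fin m, 5 < ∑ c, cnt (me D c) :=
      Finset.sum_lt_sum (fun c _ => h5 c) ⟨c, Finset.mem_univ c, h⟩
    rw [← card_eq'] at this
    simp at this
    omega
  have H := (copyD _ (dom_copy' D hD c)).2 hle
  have : me D c i = true := by
    have hi' : i = 0 ∨ i = 1 ∨ i = 2 ∨ i = 3 ∨ i = 4 := by
      revert i; decide
    rcases hi' with rfl | rfl | rfl | rfl | rfl
    · exact H.1
    · exact H.2.1
    · exact H.2.2.1
    · exact H.2.2.2.1
    · exact H.2.2.2.2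
  exact (me_iff _ _ _).mp this

/-- A dominating set without label vertices has at least `7 m` vertices. -/
theorem inv_ge {m : ℕ} (S : Finset (Fin m × Fin 26))
    (hS : ∀ v, v ∈ S ∨ ∃ u ∈ S, (Gr m).Adj v u)
    (hSnot : ∀ (c : Fin m) (i : Fin 26), i < 5 → (c, i) ∉ S) : 7 * m ≤ S.card := by
  rw [card_eq']
  calc 7 * m = ∑ _c : Fin m, 7 := by simp [mul_comm]
    _ ≤ _ := Finset.sum_le_sum fun c _ => ?_
  apply copyS
  · intro i
    rcases hS (c, i) with h | ⟨⟨c', j⟩, hj, h | h⟩
    · left; exact (me_iff _ _ _).mpr h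
    · right
      obtain ⟨h1, h2⟩ := h
      simp only at h1 h2
      subst h1
      exact ⟨j, h2, (me_iff _ _ _).mpr hj⟩
    · exact absurd hj (hSnot c' j h.2.2)
  · intro i hi
    have := hSnot c i hi
    simp [me, this]

/-- Two label vertices are equal or adjacent. -/
theorem label_adj {m : ℕ} (p q : Fin m × Fin 26) (hp : p.2 < 5) (hq : q.2 < 5) (h : p ≠ q) :
    (Gr m).Adj p q := by
  obtain ⟨c, i⟩ := p
  obtain ⟨d, j⟩ := q
  by_cases hcd : c = d
  · subst hcd
    left
    refine ⟨rfl, ?_⟩
    have hij : i ≠ j := fun e => h (by rw [e])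
    have key : ∀ i j : Fin 26, i < 5 → j < 5 → i ≠ j → j ∈ nb i := by decide +kernel
    exact key i j hp hq hij
  · exact Or.inr ⟨hcd, hp, hq⟩

/-- Independent sets have at most `6 m + 1` vertices. -/
theorem indep_le {m : ℕ} (I : Finset (Fin m × Fin 26))
    (hI : (Gr m).IsIndepSet (I : Set (Fin m × Fin 26))) : I.card ≤ 6 * m + 1 := by
  have hind : ∀ p q, (Gr m).Adj p q → ¬ (p ∈ I ∧ q ∈ I) := by
    rintro p q hpq ⟨hp, hq⟩
    exact hI hp hq ((Gr m).ne_of_adj hpq) hpq
  have hcopy : ∀ (c : Fin m) (i j : Fin 26), j ∈ nb i → (me I c i && me I c j) = false := by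
    intro c i j hij
    by_contra hne
    rw [Bool.not_eq_false, Bool.and_eq_true, me_iff, me_iff] at hne
    exact hind (c, i) (c, j) (Or.inl ⟨rfl, hij⟩) hne
  -- number of label vertices in `I`
  have hlab : (I.filter (fun v => v.2 < 5)).card ≤ 1 := by
    rw [Finset.card_le_one]
    intro p hp q hq
    rw [Finset.mem_filter] at hp hq
    by_contra h
    exact hind p q (label_adj p q hp.2 hq.2 h) ⟨hp.1, hq.1⟩
  have hsum : (I.filter (fun v => v.2 < 5)).card =
      ∑ c, ((me I c 0).toNat + (me I c 1).toNat + (me I c 2).toNat + (me I c 3).toNat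
        + (me I c 4).toNat) := by
    rw [card_eq']
    apply Finset.sum_congr rfl
    intro c _
    have h : me (I.filter (fun v => v.2 < 5)) c = fun i => (me I c i && decide (i < 5)) := by
      funext i; simp [me]
    rw [h]
    have key : ∀ x : Fin 26 → Bool, cnt (fun i => x i && decide (i < 5)) =
        (x 0).toNat + (x 1).toNat + (x 2).toNat + (x 3).toNat + (x 4).toNat := by
      intro x
      rw [cnt_eq]
      have e0 : decide ((0 : Fin 26) < 5) = true := by decide
      have e1 : decide ((1 : Fin 26) < 5) = true := by decide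
      have e2 : decide ((2 : Fin 26) < 5) = true := by decide
      have e3 : decide ((3 : Fin 26) < 5) = true := by decide
      have e4 : decide ((4 : Fin 26) < 5) = true := by decide
      have f : ∀ i : Fin 26, 5 ≤ i → decide (i < 5) = false := by
        intro i hi; simpa using hi
      rw [e0, e1, e2, e3, e4, f 5 (by decide), f 6 (by decide), f 7 (by decide), f 8 (by decide),
        f 9 (by decide), f 10 (by decide), f 11 (by decide), f 12 (by decide), f 13 (by decide),
        f 14 (by decide), f 15 (by decide), f 16 (by decide), f 17 (by decide), f 18 (by decide),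
        f 19 (by decide), f 20 (by decide), f 21 (by decide), f 22 (by decide), f 23 (by decide),
        f 24 (by decide), f 25 (by decide)]
      simp
    exact key _
  rw [card_eq']
  calc ∑ c, cnt (me I c) ≤ ∑ c, (((me I c 0).toNat + (me I c 1).toNat + (me I c 2).toNat
        + (me I c 3).toNat + (me I c 4).toNat) + 6) :=
        Finset.sum_le_sum fun c _ => copyI _ (hcopy c)
    _ = (I.filter (fun v => v.2 < 5)).card + 6 * m := by
        rw [Finset.sum_add_distrib, ← hsum]; simp [mul_comm]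
    _ ≤ 6 * m + 1 := by omega

/-- The graph is connected. -/
theorem conn (m : ℕ) (hm : 1 ≤ m) : (Gr m).Connected := by
  have h0 : (0 : Fin 26) < 5 := by decide
  have key : ∀ p : Fin m × Fin 26, (Gr m).Reachable p (⟨0, hm⟩, 0) := by
    intro p
    have hl : ∀ q : Fin m × Fin 26, q.2 < 5 → (Gr m).Reachable q (⟨0, hm⟩, 0) := by
      intro q hq
      by_cases h : q = (⟨0, hm⟩, 0)
      · rw [h]
      · exact (label_adj q _ hq h0 h).reachable
    rcases L_dom m p with h | ⟨u, hu, hpu⟩
    · exact hl p (by simpa [L] using h)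
    · exact hpu.reachable.trans (hl u (by simpa [L] using hu))
  have : Nonempty (Fin m × Fin 26) := ⟨(⟨0, hm⟩, 0)⟩
  exact ⟨fun p q => (key p).trans (key q).symm⟩

/-- For every `m ≥ 1` there is a connected graph `G` on `26 m` vertices with domination number `5 m`,
with exactly one minimum dominating set `D₀`, with independence number at most `6 m + 1`, and such
that every dominating set disjoint from a minimum dominating set has at least `7 m` vertices.
In particular the inverse domination number can exceed the independence number by any `k`, and the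
quotient of the two numbers can be arbitrarily close to `7 / 6` or larger. -/
theorem result :
    (∀ m : ℕ, 1 ≤ m → ∃ (G : SimpleGraph (Fin m × Fin 26)) (D₀ : Finset (Fin m × Fin 26)),
      G.Connected ∧ (∀ v, ∃ u, G.Adj v u) ∧
      (D₀.card = 5 * m ∧ (∀ v, v ∈ D₀ ∨ ∃ u ∈ D₀, G.Adj v u)) ∧
      (∀ D : Finset (Fin m × Fin 26), (∀ v, v ∈ D ∨ ∃ u ∈ D, G.Adj v u) →
        D₀.card ≤ D.card ∧ (D.card = D₀.card → D = D₀)) ∧
      (∀ I : Finset (Fin m × Fin 26), G.IsIndepSet (I : Set (Fin m × Fin 26)) →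
        I.card ≤ 6 * m + 1) ∧
      (∀ S : Finset (Fin m × Fin 26), (∀ v, v ∈ S ∨ ∃ u ∈ S, G.Adj v u) → Disjoint S D₀ →
        7 * m ≤ S.card)) ∧
    (∀ k : ℕ, ∃ (V : Type) (_ : Fintype V) (G : SimpleGraph V),
      G.Connected ∧ (∀ v : V, ∃ u : V, G.Adj v u) ∧
      ∀ D S : Finset V,
        (∀ v : V, v ∈ D ∨ ∃ u ∈ D, G.Adj v u) →
        (∀ D' : Finset V, (∀ v : V, v ∈ D' ∨ ∃ u ∈ D', G.Adj v u) → D.card ≤ D'.card) →
        Disjoint S D → (∀ v : V, v ∈ S ∨ ∃ u ∈ S, G.Adj v u) →
        ∀ I : Finset V, G.IsIndepSet (I : Set V) →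
          I.card + k ≤ S.card ∧ 7 * I.card ≤ 6 * S.card + 7) := by
  have huniq : ∀ m : ℕ, ∀ D : Finset (Fin m × Fin 26),
      (∀ v, v ∈ D ∨ ∃ u ∈ D, (Gr m).Adj v u) → D.card ≤ (L m).card → D = L m := by
    intro m D hD hle
    symm
    apply Finset.eq_of_subset_of_card_le
    · rintro ⟨c, i⟩ hp
      have hi : i < 5 := by simpa [L] using hp
      exact dom_eq D hD (by rw [L_card] at hle; exact hle) c i hi
    · exact hle
  have hinv : ∀ m : ℕ, ∀ S : Finset (Fin m × Fin 26),
      (∀ v, v ∈ S ∨ ∃ u ∈ S, (Gr m).Adj v u) → Disjoint S (L m) → 7 * m ≤ S.card := by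
    intro m S hS hdis
    apply inv_ge S hS
    intro c i hi h
    exact Finset.disjoint_left.mp hdis h (by simp [L, hi])
  constructor
  · intro m hm
    refine ⟨Gr m, L m, conn m hm, no_isolated' m, ⟨L_card m, L_dom m⟩, ?_, ?_, hinv m⟩
    · intro D hD
      refine ⟨by rw [L_card]; exact dom_ge D hD, fun h => huniq m D hD h.le⟩
    · intro I hI; exact indep_le I hI
  · intro k
    refine ⟨Fin (k + 1) × Fin 26, inferInstance, Gr (k + 1), conn _ (by omega), no_isolated' _, ?_⟩
    intro D S hD hmin hdis hS I hI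
    have hDL : D = L (k + 1) := huniq _ D hD (hmin _ (L_dom _))
    subst hDL
    have h1 := hinv _ S hS hdis
    have h2 := indep_le I hI
    constructor <;> omega

end Pool.Agent.Results.MP_bd5289_co.UnboundedGap
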